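import Pool.Agent.helper9.HQ.Spec

set_option autoImplicit false

open scoped Classical

namespace Pool.Agent.helper9.HQ

open Finset
open Pool.Agent.helper65.HC (V IsEig IsTop lam)

noncomputable section

/-- the numbers of the quasi-star -/
theorem LBD_star (d e : ℕ) (hd : 1 ≤ d) : ∃ k : ℕ, k ≤ d ∧ 2 * k * d ≤ 2 * e + k ^ 2 + k ∧
    2 * (k : ℝ) * d - k ^ 2 ≤ 2 * e + 2 + 2 * d ∧
    min 1 ((2 * e + 2 + 2 * d : ℝ) / d ^ 2) - (2 * (k : ℝ) * d - k ^ 2) / d ^ 2 ≤ 6 / d := by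
  have hd0 : (1 : ℝ) ≤ d := by exact_mod_cast hd
  have hd1 : (0 : ℝ) < d := by linarith
  set P : ℕ → Prop := fun k => 2 * k * d ≤ 2 * e + k ^ 2 + k with hP
  have h0 : P 0 := by
    show 2 * 0 * d ≤ 2 * e + 0 ^ 2 + 0
    omega
  have hk1 := Nat.findGreatest_spec (P := P) (Nat.zero_le d) h0
  have hk2 : Nat.findGreatest P d ≤ d := Nat.findGreatest_le d
  have hk3 : Nat.findGreatest P d < d → ¬ P (Nat.findGreatest P d + 1) := fun h =>
    Nat.findGreatest_is_greatest (Nat.lt_succ_self _) h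
  set k := Nat.findGreatest P d with hk
  have hkR : (k : ℝ) ≤ d := by exact_mod_cast hk2
  have hk0 : (0 : ℝ) ≤ k := Nat.cast_nonneg k
  have hP1 : 2 * (k : ℝ) * d ≤ 2 * e + k ^ 2 + k := by exact_mod_cast hk1
  refine ⟨k, hk2, hk1, by linarith, ?_⟩
  rcases hk2.eq_or_lt with h | h
  · have h1 : (k : ℝ) = d := by exact_mod_cast h
    have h2 : (2 * (k : ℝ) * d - k ^ 2) / d ^ 2 = 1 := by
      rw [h1]
      field_simp
      ring
    rw [h2]
    have h3 : min 1 ((2 * e + 2 + 2 * d : ℝ) / d ^ 2) ≤ 1 := min_le_left _ _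
    have h4 : (0 : ℝ) ≤ 6 / d := by positivity
    linarith
  · have h1 := hk3 h
    have h2 : ¬ (2 * (k + 1) * d ≤ 2 * e + (k + 1) ^ 2 + (k + 1)) := h1
    rw [not_le] at h2
    have h3 : (2 * (e : ℝ) + (k + 1) ^ 2 + (k + 1)) < 2 * (k + 1) * d := by exact_mod_cast h2
    have h4 : (2 * e + 2 + 2 * d : ℝ) - (2 * (k : ℝ) * d - k ^ 2) ≤ 6 * d := by nlinarith
    have h5 : (2 * e + 2 + 2 * d : ℝ) / d ^ 2 - (2 * (k : ℝ) * d - k ^ 2) / d ^ 2 ≤ 6 / d := by
      rw [← sub_div, div_le_div_iff₀ (by positivity) hd1]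
      nlinarith
    have h6 : min 1 ((2 * e + 2 + 2 * d : ℝ) / d ^ 2) ≤ (2 * e + 2 + 2 * d : ℝ) / d ^ 2 := min_le_right _ _
    linarith

/-- the numbers of the quasi-clique -/
theorem LBD_clique (d e : ℕ) (hd : 1 ≤ d) : ∃ k : ℕ, k ≤ d ∧ k ^ 2 ≤ 2 * e + k ∧
    (k : ℝ) ^ 2 ≤ 2 * e + 2 + 2 * d ∧
    min 1 ((2 * e + 2 + 2 * d : ℝ) / d ^ 2) - (k : ℝ) ^ 2 / d ^ 2 ≤ 6 / d := by
  have hd0 : (1 : ℝ) ≤ d := by exact_mod_cast hd
  have hd1 : (0 : ℝ) < d := by linarith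
  set P : ℕ → Prop := fun k => k ^ 2 ≤ 2 * e + k with hP
  have h0 : P 0 := by
    show 0 ^ 2 ≤ 2 * e + 0
    omega
  have hk1 := Nat.findGreatest_spec (P := P) (Nat.zero_le d) h0
  have hk2 : Nat.findGreatest P d ≤ d := Nat.findGreatest_le d
  have hk3 : Nat.findGreatest P d < d → ¬ P (Nat.findGreatest P d + 1) := fun h =>
    Nat.findGreatest_is_greatest (Nat.lt_succ_self _) h
  set k := Nat.findGreatest P d with hk
  have hkR : (k : ℝ) ≤ d := by exact_mod_cast hk2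
  have hk0 : (0 : ℝ) ≤ k := Nat.cast_nonneg k
  have hP1 : (k : ℝ) ^ 2 ≤ 2 * e + k := by exact_mod_cast hk1
  refine ⟨k, hk2, hk1, by linarith, ?_⟩
  rcases hk2.eq_or_lt with h | h
  · have h1 : (k : ℝ) = d := by exact_mod_cast h
    have h2 : (k : ℝ) ^ 2 / d ^ 2 = 1 := by
      rw [h1]
      field_simp
    rw [h2]
    have h3 : min 1 ((2 * e + 2 + 2 * d : ℝ) / d ^ 2) ≤ 1 := min_le_left _ _
    have h4 : (0 : ℝ) ≤ 6 / d := by positivity
    linarith
  · have h1 := hk3 h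
    have h2 : ¬ ((k + 1) ^ 2 ≤ 2 * e + (k + 1)) := h1
    rw [not_le] at h2
    have h3 : (2 * (e : ℝ) + (k + 1)) < (k + 1) ^ 2 := by exact_mod_cast h2
    have h4 : (2 * e + 2 + 2 * d : ℝ) - (k : ℝ) ^ 2 ≤ 6 * d := by nlinarith
    have h5 : (2 * e + 2 + 2 * d : ℝ) / d ^ 2 - (k : ℝ) ^ 2 / d ^ 2 ≤ 6 / d := by
      rw [← sub_div, div_le_div_iff₀ (by positivity) hd1]
      nlinarith
    have h6 : min 1 ((2 * e + 2 + 2 * d : ℝ) / d ^ 2) ≤ (2 * e + 2 + 2 * d : ℝ) / d ^ 2 := min_le_right _ _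
    linarith

theorem LBD (hLF : LF_stmt) (hLS : LS_stmt) (hLC : LC_stmt) (hCM : CM_stmt) (hCC : CC_stmt) :
    LBD_stmt := by
  intro eps heps
  obtain ⟨de, hde, hcc⟩ := hCC (eps / 2) (by positivity)
  obtain ⟨d₀, hd₀⟩ := exists_nat_gt (6 / de + 4 / eps + 1)
  refine ⟨d₀, ?_⟩
  intro d hd m hm1 hm2
  have hdR : 6 / de + 4 / eps + 1 < (d : ℝ) := lt_of_lt_of_le hd₀ (by exact_mod_cast hd)
  have h6 : 0 < 6 / de := by positivity
  have h4 : 0 < 4 / eps := by positivity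
  have hd1R : (1 : ℝ) < d := by linarith
  have hd0 : (0 : ℝ) < d := by linarith
  have hd1 : 1 ≤ d := by exact_mod_cast hd1R.le
  have hde6 : 6 / (d : ℝ) < de := by
    rw [div_lt_iff₀ hd0]
    have : 6 / de < d := by linarith
    rw [div_lt_iff₀ hde] at this
    linarith
  have hde2 : 2 / (d : ℝ) < eps / 2 := by
    rw [div_lt_iff₀ hd0]
    have : 4 / eps < d := by linarith
    rw [div_lt_iff₀ heps] at this
    linarith
  obtain ⟨e, he⟩ : ∃ e, m = e + 1 + d := ⟨m - 1 - d, by omega⟩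
  have hmR : (2 * m : ℝ) = 2 * e + 2 + 2 * d := by
    rw [he]; push_cast; ring
  rw [hmR]
  set al : ℝ := min 1 ((2 * e + 2 + 2 * d : ℝ) / d ^ 2) with hal
  have hal0 : 0 ≤ al := le_min zero_le_one (by positivity)
  have hal1 : al ≤ 1 := min_le_left _ _
  -- from a graph to a set
  have hfin : ∀ (G : Fam d) (y : Fin d → ℝ) (C : ℝ), (∀ p ∈ G, p.card = 2) → 0 < ∑ i, y i ^ 2 →
      G.card ≤ e → (d * C - 2) * ∑ i, y i ^ 2 ≤ gf G y → c al - eps / 2 ≤ C →
      ∃ U : Finset (V d), U.card = m ∧ ∀ t, IsTop U t → 0 ≤ t ∧ c al - eps ≤ t ^ 2 / d := by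
    intro G y C hG hy hGe hgf hC
    obtain ⟨U, hU, hUt⟩ := hLF d m G y hG hy (by omega) hm2
    refine ⟨U, hU, ?_⟩
    intro t ht
    obtain ⟨ht0, ht1⟩ := hUt t ht
    refine ⟨ht0, ?_⟩
    have h1 : d * C - 2 ≤ t ^ 2 := le_of_mul_le_mul_right (le_trans hgf ht1) hy
    have h2 : C - 2 / d ≤ t ^ 2 / d := by
      rw [le_div_iff₀ hd0, sub_mul, div_mul_cancel₀ _ hd0.ne']
      linarith
    linarith
  rcases le_total (cC (√al)) (cS (1 - √(1 - al))) with hmax | hmax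
  · have hc : c al = cS (1 - √(1 - al)) := max_eq_left hmax
    obtain ⟨k, hk1, hk2, hk3, hk4⟩ := LBD_star d e hd1
    obtain ⟨G, y, hG, hGc, hy, hgf⟩ := hLS d k hd1 hk1
    have hkd : (k : ℝ) ≤ d := by exact_mod_cast hk1
    have hk0 : (0 : ℝ) ≤ k := Nat.cast_nonneg k
    set A : ℝ := (2 * (k : ℝ) * d - k ^ 2) / d ^ 2 with hA
    have hA0 : 0 ≤ A := by
      rw [hA]
      apply div_nonneg _ (by positivity)
      nlinarith
    have hA1 : 1 - A = (1 - k / d) ^ 2 := by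
      rw [hA]
      field_simp
      ring
    have hs1 : (k : ℝ) / d ≤ 1 := div_le_one_of_le₀ hkd hd0.le
    have hsq : √(1 - A) = 1 - k / d := by
      rw [hA1, Real.sqrt_sq (by linarith)]
    have hA2 : A ≤ 1 := by
      have : 0 ≤ (1 - (k : ℝ) / d) ^ 2 := by positivity
      linarith
    have hAal : A ≤ al := by
      apply le_min hA2
      rw [hA]
      exact div_le_div_of_nonneg_right hk3 (by positivity)
    have habs : |al - A| < de := by
      rw [abs_of_nonneg (by linarith)]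
      exact lt_of_le_of_lt hk4 hde6
    have h1 := (hcc al A hal0 hal1 hA0 hA2 habs).2.1
    rw [hsq] at h1
    have h2 : (1 : ℝ) - (1 - k / d) = k / d := by ring
    rw [h2] at h1
    have h3 := (abs_lt.1 h1).2
    exact hfin G y (cS (k / d)) hG hy (by omega) hgf (by rw [hc]; linarith)
  · have hc : c al = cC (√al) := max_eq_right hmax
    obtain ⟨k, hk1, hk2, hk3, hk4⟩ := LBD_clique d e hd1
    obtain ⟨G, y, hG, hGc, hy, hgf⟩ := hLC d k hd1 hk1
    have hkd : (k : ℝ) ≤ d := by exact_mod_cast hk1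
    have hk0 : (0 : ℝ) ≤ k := Nat.cast_nonneg k
    set A : ℝ := (k : ℝ) ^ 2 / d ^ 2 with hA
    have hA0 : 0 ≤ A := by positivity
    have hA1 : A = (k / d) ^ 2 := by
      rw [hA, div_pow]
    have hs1 : (k : ℝ) / d ≤ 1 := div_le_one_of_le₀ hkd hd0.le
    have hs0 : 0 ≤ (k : ℝ) / d := by positivity
    have hsq : √A = k / d := by
      rw [hA1, Real.sqrt_sq hs0]
    have hA2 : A ≤ 1 := by
      rw [hA1]
      exact pow_le_one₀ hs0 hs1
    have hAal : A ≤ al := by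
      apply le_min hA2
      rw [hA]
      exact div_le_div_of_nonneg_right hk3 (by positivity)
    have habs : |al - A| < de := by
      rw [abs_of_nonneg (by linarith)]
      exact lt_of_le_of_lt hk4 hde6
    have h1 := (hcc al A hal0 hal1 hA0 hA2 habs).2.2
    rw [hsq] at h1
    have h3 := (abs_lt.1 h1).2
    exact hfin G y (cC (k / d)) hG hy (by omega) hgf (by rw [hc]; linarith)

end

end Pool.Agent.helper9.HQ
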