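import Pool.Agent.helper9.HQ.Spec

set_option autoImplicit false

open scoped Classical

namespace Pool.Agent.helper9.HQ

open Finset
open Pool.Agent.helper65.HC (V IsEig IsTop lam)

noncomputable section

theorem LS_two {d : ℕ} (p : Finset (Fin d)) (hp : p.card = 2) :
    (univ.filter fun q : Fin d × Fin d => q.1 ≠ q.2 ∧ ({q.1, q.2} : Finset (Fin d)) = p).card = 2 := by
  obtain ⟨a, b, hab, rfl⟩ := Finset.card_eq_two.1 hp
  have h : (univ.filter fun q : Fin d × Fin d => q.1 ≠ q.2 ∧ ({q.1, q.2} : Finset (Fin d)) = {a, b}) =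
      {(a, b), (b, a)} := by
    ext ⟨i, j⟩
    simp only [mem_filter, mem_univ, true_and, mem_insert, mem_singleton, Prod.mk.injEq]
    constructor
    · rintro ⟨_, h⟩
      have h' : ({i, j} : Set (Fin d)) = {a, b} := by
        have h2 := congrArg (fun S : Finset (Fin d) => (S : Set (Fin d))) h
        simp only [Finset.coe_insert, Finset.coe_singleton] at h2
        exact h2
      exact Set.pair_eq_pair_iff.1 h'
    · rintro (⟨rfl, rfl⟩ | ⟨rfl, rfl⟩)
      · exact ⟨hab, rfl⟩
      · exact ⟨fun h => hab h.symm, Finset.pair_comm _ _⟩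
  rw [h, Finset.card_pair]
  intro h2
  exact hab (Prod.mk.inj h2).1

/-- sums over ordered pairs -/
theorem LS_pairs {d : ℕ} (G : Fam d) (hG : ∀ p ∈ G, p.card = 2) (h : Finset (Fin d) → ℝ) :
    ∑ i, ∑ j, (if i ≠ j ∧ ({i, j} : Finset (Fin d)) ∈ G then h {i, j} else 0) = 2 * ∑ p ∈ G, h p := by
  rw [← Fintype.sum_prod_type' (f := fun i j => if i ≠ j ∧ ({i, j} : Finset (Fin d)) ∈ G then h {i, j} else 0),
    ← Finset.sum_filter]
  rw [← Finset.sum_fiberwise_of_maps_to (s := univ.filter fun q : Fin d × Fin d =>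
    q.1 ≠ q.2 ∧ ({q.1, q.2} : Finset (Fin d)) ∈ G) (t := G)
    (g := fun q => ({q.1, q.2} : Finset (Fin d))) (fun q hq => (Finset.mem_filter.1 hq).2.2), Finset.mul_sum]
  apply Finset.sum_congr rfl
  intro p hp
  have h1 : ∀ q ∈ (univ.filter fun q : Fin d × Fin d =>
      q.1 ≠ q.2 ∧ ({q.1, q.2} : Finset (Fin d)) ∈ G).filter
      (fun q => ({q.1, q.2} : Finset (Fin d)) = p), h {q.1, q.2} = h p := by
    intro q hq
    rw [(Finset.mem_filter.1 hq).2]
  rw [Finset.sum_congr rfl h1, Finset.sum_const, Finset.filter_filter]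
  have h2 : (univ.filter fun q : Fin d × Fin d => (q.1 ≠ q.2 ∧ ({q.1, q.2} : Finset (Fin d)) ∈ G) ∧
      ({q.1, q.2} : Finset (Fin d)) = p) =
      univ.filter fun q : Fin d × Fin d => q.1 ≠ q.2 ∧ ({q.1, q.2} : Finset (Fin d)) = p := by
    ext q
    simp only [mem_filter, mem_univ, true_and]
    constructor
    · rintro ⟨⟨h3, _⟩, h4⟩
      exact ⟨h3, h4⟩
    · rintro ⟨h3, h4⟩
      exact ⟨⟨h3, by rw [h4]; exact hp⟩, h4⟩
  rw [h2, LS_two p (hG p hp)]
  simp

theorem LS_sum (d k : ℕ) (hk : k ≤ d) (u v : ℝ) :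
    ∑ i : Fin d, (if (i : ℕ) < k then u else v) = k * u + (d - k) * v := by
  obtain ⟨m, rfl⟩ := Nat.exists_eq_add_of_le hk
  rw [Fin.sum_univ_eq_sum_range (fun i => if i < k then u else v) (k + m), Finset.sum_range_add]
  have h1 : ∑ i ∈ range k, (if i < k then u else v) = k * u := by
    rw [Finset.sum_congr rfl (g := fun _ => u) (fun i hi => if_pos (Finset.mem_range.1 hi)), Finset.sum_const,
      Finset.card_range, nsmul_eq_mul]
  have h2 : ∑ i ∈ range m, (if k + i < k then u else v) = m * v := by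
    rw [Finset.sum_congr rfl (g := fun _ => v) (fun i _ => if_neg (by omega)), Finset.sum_const,
      Finset.card_range, nsmul_eq_mul]
  rw [h1, h2]
  push_cast
  ring

/-- pairs meeting the first `k` coordinates -/
def LS_G (d k : ℕ) : Fam d := univ.filter fun p => p.card = 2 ∧ ∃ i ∈ p, (i : ℕ) < k

theorem LS_mem (d k : ℕ) (i j : Fin d) : (i ≠ j ∧ ({i, j} : Finset (Fin d)) ∈ LS_G d k) ↔
    (i ≠ j ∧ ((i : ℕ) < k ∨ (j : ℕ) < k)) := by
  unfold LS_G
  simp only [mem_filter, mem_univ, true_and]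
  constructor
  · rintro ⟨h1, _, x, hx, h3⟩
    refine ⟨h1, ?_⟩
    rcases Finset.mem_insert.1 hx with rfl | hx
    · exact Or.inl h3
    · rw [Finset.mem_singleton.1 hx] at h3
      exact Or.inr h3
  · rintro ⟨h1, h2⟩
    refine ⟨h1, Finset.card_pair h1, ?_⟩
    rcases h2 with h2 | h2
    · exact ⟨i, Finset.mem_insert_self _ _, h2⟩
    · exact ⟨j, Finset.mem_insert_of_mem (Finset.mem_singleton_self _), h2⟩

theorem LS_count (d k : ℕ) (hk : k ≤ d) (f : Bool → Bool → ℝ) :
    ∑ i : Fin d, ∑ j : Fin d, (if i ≠ j ∧ ((i : ℕ) < k ∨ (j : ℕ) < k) then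
      f (decide ((i : ℕ) < k)) (decide ((j : ℕ) < k)) else 0) =
      k * (k * f true true + (d - k) * f true false) + (d - k) * (k * f false true) - k * f true true := by
  have h1 : ∀ i j : Fin d, (if i ≠ j ∧ ((i : ℕ) < k ∨ (j : ℕ) < k) then
      f (decide ((i : ℕ) < k)) (decide ((j : ℕ) < k)) else 0) =
      (if (i : ℕ) < k then (if (j : ℕ) < k then f true true else f true false) else
        (if (j : ℕ) < k then f false true else 0)) -
      (if i = j then (if (i : ℕ) < k then f true true else 0) else 0) := by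
    intro i j
    by_cases hi : (i : ℕ) < k
    · by_cases hj : (j : ℕ) < k
      · by_cases hij : i = j
        · subst hij
          simp [hi]
        · simp [hi, hj, hij]
      · have hij : i ≠ j := by
          rintro rfl
          exact hj hi
        simp [hi, hj, hij]
    · by_cases hj : (j : ℕ) < k
      · have hij : i ≠ j := by
          rintro rfl
          exact hi hj
        simp [hi, hj, hij]
      · simp [hi, hj]
  have h2 : ∀ i : Fin d, ∑ j : Fin d, (if i ≠ j ∧ ((i : ℕ) < k ∨ (j : ℕ) < k) then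
      f (decide ((i : ℕ) < k)) (decide ((j : ℕ) < k)) else 0) =
      (if (i : ℕ) < k then (k * f true true + (d - k) * f true false) else (k * f false true)) -
      (if (i : ℕ) < k then f true true else 0) := by
    intro i
    rw [Finset.sum_congr rfl fun j _ => h1 i j, Finset.sum_sub_distrib, Finset.sum_ite_eq,
      if_pos (Finset.mem_univ i)]
    congr 1
    by_cases hi : (i : ℕ) < k
    · simp only [if_pos hi]
      exact LS_sum d k hk _ _
    · simp only [if_neg hi]
      rw [LS_sum d k hk]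
      ring
  rw [Finset.sum_congr rfl fun i _ => h2 i, Finset.sum_sub_distrib, LS_sum d k hk, LS_sum d k hk]
  ring

theorem LS : LS_stmt := by
  intro d k hd hk
  have hG : ∀ p ∈ LS_G d k, p.card = 2 := fun p hp => (Finset.mem_filter.1 hp).2.1
  have hd0 : (0 : ℝ) < d := by exact_mod_cast hd
  have hkd : (k : ℝ) ≤ d := by exact_mod_cast hk
  have hcount : 2 * (LS_G d k).card + k ^ 2 + k = 2 * k * d := by
    have h1 := LS_pairs (LS_G d k) hG (fun _ => 1)
    rw [Finset.sum_congr rfl fun i _ => Finset.sum_congr rfl fun j _ => by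
      rw [if_congr (LS_mem d k i j) rfl rfl], LS_count d k hk (fun _ _ => 1)] at h1
    simp only [Finset.sum_const, nsmul_eq_mul, mul_one] at h1
    have h2 : ((2 * (LS_G d k).card + k ^ 2 + k : ℕ) : ℝ) = ((2 * k * d : ℕ) : ℝ) := by
      push_cast
      linarith
    exact_mod_cast h2
  set s : ℝ := k / d with hs
  have hks : (k : ℝ) = s * d := by rw [hs]; field_simp
  have hs0 : 0 ≤ s := by rw [hs]; positivity
  have hs1 : s ≤ 1 := by rw [hs]; exact div_le_one_of_le₀ hkd hd0.le
  obtain ⟨α, β, hpos, heig⟩ : ∃ α β : ℝ, 0 < k * α ^ 2 + (d - k) * β ^ 2 ∧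
      s * α * ((1 + 2 * s) * α + 2 * (1 - s) * β) + (1 - s) * β * (β + 2 * s * α) =
      cS s * (s * α ^ 2 + (1 - s) * β ^ 2) := by
    rcases Nat.eq_zero_or_pos k with hk0 | hk0
    · refine ⟨0, 1, ?_, ?_⟩
      · rw [hk0]
        simp only [Nat.cast_zero, zero_mul, sub_zero, zero_add, one_pow, mul_one]
        exact hd0
      · have h0 : s = 0 := by rw [hs, hk0]; simp
        rw [h0]
        unfold cS
        simp
    · rcases hk.eq_or_lt with hkd' | hkd'
      · refine ⟨1, 0, ?_, ?_⟩
        · simp only [one_pow, mul_one]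
          have : (0 : ℝ) < k := by exact_mod_cast hk0
          nlinarith
        · have h0 : s = 1 := by rw [hs, hkd']; field_simp
          rw [h0]
          unfold cS
          have h1 : (4 * (1 : ℝ) - 3 * 1 ^ 2) = 1 := by norm_num
          rw [h1, Real.sqrt_one]
          norm_num
      · have hk0' : (0 : ℝ) < k := by exact_mod_cast hk0
        have hkd'' : (k : ℝ) < d := by exact_mod_cast hkd'
        have hs1' : s < 1 := by rw [hs, div_lt_one hd0]; exact hkd''
        refine ⟨2 * (1 - s), √(4 * s - 3 * s ^ 2) - s, ?_, ?_⟩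
        · have h1 : 0 < (k : ℝ) * (2 * (1 - s)) ^ 2 := by
            apply mul_pos hk0'
            apply pow_pos
            linarith
          have h2 : 0 ≤ ((d : ℝ) - k) * (√(4 * s - 3 * s ^ 2) - s) ^ 2 :=
            mul_nonneg (by linarith) (by positivity)
          linarith
        · have h3 : 0 ≤ 4 * s - 3 * s ^ 2 := by nlinarith
          have h4 := Real.sq_sqrt h3
          unfold cS
          set r := √(4 * s - 3 * s ^ 2)
          linear_combination (-(1 - s) * (r - s)) * h4
  set y : Fin d → ℝ := fun i => if (i : ℕ) < k then α else β with hy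
  have hyy : ∑ i, y i ^ 2 = k * α ^ 2 + (d - k) * β ^ 2 := by
    rw [← LS_sum d k hk]
    apply Finset.sum_congr rfl
    intro i _
    rw [hy]
    show (if (i : ℕ) < k then α else β) ^ 2 = _
    split_ifs <;> rfl
  have hyF : ∑ i, y i = k * α + (d - k) * β := LS_sum d k hk α β
  have hgf : gf (LS_G d k) y = (k * α + (d - k) * β) ^ 2 + (2 * k ^ 2 * α ^ 2 - 2 * k * α ^ 2 +
      k * (d - k) * (α + β) ^ 2) := by
    unfold gf
    rw [hyF]
    congr 1
    have h1 := LS_pairs (LS_G d k) hG (fun p => (∑ i ∈ p, y i) ^ 2)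
    have h2 : ∀ i j : Fin d, (if i ≠ j ∧ ({i, j} : Finset (Fin d)) ∈ LS_G d k then
        (∑ l ∈ ({i, j} : Finset (Fin d)), y l) ^ 2 else 0) =
        (if i ≠ j ∧ ((i : ℕ) < k ∨ (j : ℕ) < k) then
          (fun a b : Bool => ((if a then α else β) + (if b then α else β)) ^ 2)
            (decide ((i : ℕ) < k)) (decide ((j : ℕ) < k)) else 0) := by
      intro i j
      by_cases h : i ≠ j ∧ ({i, j} : Finset (Fin d)) ∈ LS_G d k
      · rw [if_pos h, if_pos ((LS_mem d k i j).1 h), Finset.sum_pair h.1]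
        simp only [decide_eq_true_eq]
        rfl
      · rw [if_neg h, if_neg (fun h' => h ((LS_mem d k i j).2 h'))]
    rw [Finset.sum_congr rfl fun i _ => Finset.sum_congr rfl fun j _ => h2 i j] at h1
    have h3 := (LS_count d k hk (fun a b : Bool => ((if a then α else β) + (if b then α else β)) ^ 2)).symm.trans h1
    simp only [if_true, Bool.false_eq_true, if_false] at h3
    linarith
  refine ⟨LS_G d k, y, hG, hcount, ?_, ?_⟩
  · rw [hyy]; exact hpos
  · rw [hgf, hyy]
    have h1 : (k * α + (d - k) * β) ^ 2 + (2 * k ^ 2 * α ^ 2 + k * (d - k) * (α + β) ^ 2) =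
        d * cS s * (k * α ^ 2 + (d - k) * β ^ 2) := by
      rw [hks]
      linear_combination ((d : ℝ) ^ 2) * heig
    have h2 : 0 ≤ ((d : ℝ) - k) * β ^ 2 := mul_nonneg (by linarith) (by positivity)
    nlinarith

end

end Pool.Agent.helper9.HQ
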