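import Pool.Agent.helper9.HQ.Spec

set_option autoImplicit false

open scoped Classical

namespace Pool.Agent.helper9.HQ

open Finset
open Pool.Agent.helper65.HC (V IsEig IsTop lam)

noncomputable section

theorem UB_nonneg {d : ℕ} (U : Finset (V d)) (t : ℝ) (ht : IsTop U t) : 0 ≤ t ∧ U.Nonempty := by
  have hne : U.Nonempty := Pool.Agent.helper65.HC.nonempty_of_eig ht.1
  refine ⟨?_, hne⟩
  obtain ⟨x0, hx0⟩ := hne
  have h := Pool.Agent.helper65.HC.rayleigh ht (fun x => if x = x0 then 1 else 0) (by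
    intro x hx
    rw [if_neg]
    rintro rfl
    exact hx hx0)
  have h1 : ∑ x : V d, (if x = x0 then (1 : ℝ) else 0) ^ 2 = 1 := by
    rw [Finset.sum_eq_single x0]
    · rw [if_pos rfl, one_pow]
    · intro b _ hb
      rw [if_neg hb]
      norm_num
    · intro h
      exact absurd (Finset.mem_univ x0) h
  rw [h1, mul_one] at h
  refine le_trans ?_ h
  apply Finset.sum_nonneg
  intro x _
  apply mul_nonneg
  · split_ifs <;> norm_num
  · apply Finset.sum_nonneg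
    intro i _
    split_ifs <;> norm_num

theorem UB_q (A m d l kap r : ℝ) (J : ℕ) (hr : r = (9 / 10) ^ J) (hA0 : 0 ≤ A) (hA : A * 2 ^ J ≤ m)
    (hm : m ≤ d ^ 2) (hd : 0 < d) (hl : 0 < l) (hl2 : d ≤ 4 * l ^ 2) (hk : 0 < kap) :
    36 * A / (kap * r * l) ^ 6 ≤ 2304 / (kap ^ 6 * d) := by
  have hr0 : 0 < r := by rw [hr]; positivity
  have h1 : (1 : ℝ) ≤ 2 ^ J * r ^ 6 := by
    have h2 : (2 : ℝ) ^ J * r ^ 6 = (2 * (9 / 10) ^ 6) ^ J := by
      rw [hr, mul_pow, ← pow_mul, ← pow_mul, mul_comm J 6]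
    rw [h2]
    apply one_le_pow₀
    norm_num
  have h3 : A ≤ d ^ 2 * r ^ 6 := by
    calc A = A * 1 := (mul_one A).symm
      _ ≤ A * (2 ^ J * r ^ 6) := mul_le_mul_of_nonneg_left h1 hA0
      _ = (A * 2 ^ J) * r ^ 6 := by ring
      _ ≤ d ^ 2 * r ^ 6 := mul_le_mul_of_nonneg_right (le_trans hA hm) (by positivity)
  have h4 : d ^ 3 ≤ 64 * l ^ 6 := by
    calc d ^ 3 ≤ (4 * l ^ 2) ^ 3 := pow_le_pow_left₀ hd.le hl2 3
      _ = 64 * l ^ 6 := by ring
  rw [div_le_div_iff₀ (by positivity) (by positivity)]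
  calc 36 * A * (kap ^ 6 * d) ≤ 36 * (d ^ 2 * r ^ 6) * (kap ^ 6 * d) :=
        mul_le_mul_of_nonneg_right (by linarith) (by positivity)
    _ = 36 * (r ^ 6 * kap ^ 6) * d ^ 3 := by ring
    _ ≤ 36 * (r ^ 6 * kap ^ 6) * (64 * l ^ 6) := mul_le_mul_of_nonneg_left h4 (by positivity)
    _ = 2304 * (kap * r * l) ^ 6 := by ring

theorem UB_fin (t d c1 de kap q eps : ℝ) (hd : 0 < d) (hde0 : 0 < de) (hde : de ≤ 1 / 2)
    (hde2 : de ≤ eps / 12) (hkap : kap = de / 40) (hq0 : 0 ≤ q) (hq : q ≤ de ^ 2 / 64) (hc0 : 0 ≤ c1)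
    (hc3 : c1 ≤ 3) (ht : 0 ≤ t) (h : t * (1 - 10 * kap) * (1 - 2 * √q) ≤ √(d * c1)) :
    t ^ 2 / d ≤ c1 + eps / 2 := by
  have hsq : √q ≤ de / 8 := by
    rw [Real.sqrt_le_left (by positivity)]
    calc q ≤ de ^ 2 / 64 := hq
      _ = (de / 8) ^ 2 := by ring
  have hsq0 := Real.sqrt_nonneg q
  set b := √q with hb
  have h1 : 0 ≤ (1 - 10 * kap) * (1 - 2 * b) := mul_nonneg (by rw [hkap]; linarith) (by linarith)
  have h2 : 1 - de / 2 ≤ (1 - 10 * kap) * (1 - 2 * b) := by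
    rw [hkap]
    nlinarith [mul_nonneg hde0.le hsq0]
  have h3 : t * (1 - de / 2) ≤ √(d * c1) := by
    calc t * (1 - de / 2) ≤ t * ((1 - 10 * kap) * (1 - 2 * b)) := mul_le_mul_of_nonneg_left h2 ht
      _ = t * (1 - 10 * kap) * (1 - 2 * b) := by ring
      _ ≤ _ := h
  have h4 : (t * (1 - de / 2)) ^ 2 ≤ d * c1 := by
    calc (t * (1 - de / 2)) ^ 2 ≤ (√(d * c1)) ^ 2 :=
          pow_le_pow_left₀ (mul_nonneg ht (by linarith)) h3 2
      _ = d * c1 := Real.sq_sqrt (by positivity)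
  have h5 : 1 - de ≤ (1 - de / 2) ^ 2 := by nlinarith [sq_nonneg de]
  have h6 : t ^ 2 * (1 - de) ≤ d * c1 := by
    calc t ^ 2 * (1 - de) ≤ t ^ 2 * (1 - de / 2) ^ 2 := mul_le_mul_of_nonneg_left h5 (by positivity)
      _ = (t * (1 - de / 2)) ^ 2 := by ring
      _ ≤ _ := h4
  have h7 : t ^ 2 / d * (1 - de) ≤ c1 := by
    rw [div_mul_eq_mul_div, div_le_iff₀ hd]
    linarith
  have h8 : c1 ≤ (c1 + eps / 2) * (1 - de) := by
    have h9 : 6 * de ≤ eps / 2 := by linarith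
    nlinarith
  have h10 : t ^ 2 / d * (1 - de) ≤ (c1 + eps / 2) * (1 - de) := le_trans h7 h8
  exact le_of_mul_le_mul_right h10 (by linarith)

theorem UB (hDC : DC_stmt) (hEV : EV_stmt) (hLOC : LOC_stmt) (hDSC : DSC_stmt) (hCUT : CUT_stmt)
    (hQF : QF_stmt) (hGL : GL_stmt) (hCM : CM_stmt) (hCC : CC_stmt) : UB_stmt := by
  intro eps heps
  obtain ⟨dd, hdd, hcc⟩ := hCC (eps / 2) (by positivity)
  set de : ℝ := min (1 / 2) (eps / 12) with hde
  have hde0 : 0 < de := lt_min (by norm_num) (by positivity)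
  have hde1 : de ≤ 1 / 2 := min_le_left _ _
  have hde2 : de ≤ eps / 12 := min_le_right _ _
  set kap : ℝ := de / 40 with hkap
  have hkap0 : 0 < kap := by positivity
  have hkap1 : kap ≤ 1 / 20 := by rw [hkap]; linarith
  obtain ⟨d₀, hd₀⟩ := exists_nat_gt (2304 * 64 / (kap ^ 6 * de ^ 2) + 1 / dd + 2)
  refine ⟨d₀, ?_⟩
  intro d hd U t hU ht
  have hdR : 2304 * 64 / (kap ^ 6 * de ^ 2) + 1 / dd + 2 < (d : ℝ) :=
    lt_of_lt_of_le hd₀ (by exact_mod_cast hd)
  have hp1 : 0 < 2304 * 64 / (kap ^ 6 * de ^ 2) := by positivity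
  have hp2 : 0 < 1 / dd := by positivity
  have hd2 : (2 : ℝ) < d := by linarith
  have hd0 : (0 : ℝ) < d := by linarith
  have hd1 : 1 ≤ d := by
    have : (1 : ℝ) ≤ d := by linarith
    exact_mod_cast this
  obtain ⟨ht0, hUne⟩ := UB_nonneg U t ht
  set m : ℕ := U.card with hm
  have hmd : (m : ℝ) ≤ (d : ℝ) ^ 2 := by
    have h1 : d.choose 2 * 2 = d * (d - 1) := by
      rw [Nat.choose_two_right]
      exact Nat.div_mul_cancel (Nat.even_mul_pred_self d).two_dvd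
    have h2 : ((d.choose 2 * 2 : ℕ) : ℝ) = d * (d - 1) := by
      rw [h1]
      push_cast [Nat.cast_sub hd1]
      ring
    push_cast at h2
    have h3 : (m : ℝ) ≤ 1 + d + (d.choose 2 : ℕ) := by exact_mod_cast hU
    nlinarith
  set al : ℝ := min 1 (2 * (m : ℝ) / d ^ 2) with hal
  have hal0 : 0 ≤ al := le_min zero_le_one (by positivity)
  have hal1 : al ≤ 1 := min_le_left _ _
  by_cases htd : t ^ 2 ≤ d
  · have h1 : t ^ 2 / d ≤ 1 := div_le_one_of_le₀ htd hd0.le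
    have h2 := (hCM.2.2.2 al hal0 hal1).1
    linarith
  rw [not_le] at htd
  have htpos : 0 < t := by
    rcases ht0.eq_or_lt with h | h
    · rw [← h] at htd
      norm_num at htd
      linarith
    · exact h
  obtain ⟨A₀, hA₀, hA₀c, f₀, hf₀, hf₀t⟩ := hDC d U t ht.1
  have hA₀ne : A₀.Nonempty := by
    rw [← Finset.card_pos, hA₀c]
    exact Finset.card_pos.2 hUne
  obtain ⟨l, f, hl0, hlf⟩ := hEV d A₀ hA₀ hA₀ne
  have htl : t ≤ l := by
    have h1 := hlf.le f₀
    rw [hf₀, mul_one] at h1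
    linarith
  have hlpos : 0 < l := lt_of_lt_of_le htpos htl
  obtain ⟨A, l', f', J, hA, hE, hl', hAJ, hlk⟩ := hDSC d A₀ l f kap hA₀ hlf hlpos hkap0 hkap1
  have hlt' : t * (1 - 10 * kap) ≤ l' := by
    have h1 : t * (1 - 10 * kap) ≤ l * (1 - 10 * kap) := mul_le_mul_of_nonneg_right htl (by linarith)
    linarith
  have hl'2 : t / 2 ≤ l' := by
    have h1 : t * (1 / 2) ≤ t * (1 - 10 * kap) := mul_le_mul_of_nonneg_left (by linarith) ht0
    linarith
  have hl'pos : 0 < l' := by linarith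
  have hr0 : (0 : ℝ) < (9 / 10) ^ J := by positivity
  have hloc := hLOC d A l' f' (kap * (9 / 10) ^ J) hA hE (by positivity) hl'pos hlk
  set q : ℝ := 2304 / (kap ^ 6 * d) with hq
  have hq0 : 0 ≤ q := by positivity
  have hqle : q ≤ de ^ 2 / 64 := by
    rw [hq, div_le_div_iff₀ (by positivity) (by norm_num)]
    have h1 : 2304 * 64 / (kap ^ 6 * de ^ 2) ≤ d := by linarith
    rw [div_le_iff₀ (by positivity)] at h1
    linarith
  have hAc : ((A.card : ℕ) : ℝ) * 2 ^ J ≤ m := by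
    have h1 : A.card * 2 ^ J ≤ m := by
      rw [hm, ← hA₀c]
      exact hAJ
    exact_mod_cast h1
  have hN : N (hi A) f' ≤ q := by
    refine le_trans hloc ?_
    apply UB_q (A.card : ℝ) m d l' kap ((9 / 10) ^ J) J rfl (Nat.cast_nonneg _) hAc hmd hd0 hl'pos _ hkap0
    have h1 : t ^ 2 ≤ 4 * l' ^ 2 := by
      have h2 : t ≤ 2 * l' := by linarith
      calc t ^ 2 ≤ (2 * l') ^ 2 := pow_le_pow_left₀ ht0 h2 2
        _ = _ := by ring
    linarith
  -- the graph
  set G : Fam d := A.filter fun x => x.card = 2 with hG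
  have hGm : G.card ≤ m := by
    have h1 : G.card ≤ A.card := Finset.card_le_card (Finset.filter_subset _ _)
    have h2 : A.card * 1 ≤ A.card * 2 ^ J := Nat.mul_le_mul_left _ Nat.one_le_two_pow
    have h3 : A.card * 2 ^ J ≤ m := by
      rw [hm, ← hA₀c]
      exact hAJ
    omega
  have hGmR : (G.card : ℝ) ≤ m := by exact_mod_cast hGm
  set a1 : ℝ := min 1 ((2 * (m : ℝ) + d) / d ^ 2) with ha1
  have ha10 : 0 ≤ a1 := le_min zero_le_one (by positivity)
  have ha11 : a1 ≤ 1 := min_le_left _ _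
  have hgl : ∀ y : Fin d → ℝ, gf G y ≤ (d * c a1) * ∑ i, y i ^ 2 := by
    intro y
    have h1 := hGL d G y hd1 (fun p hp => (Finset.mem_filter.1 hp).2)
    refine le_trans h1 ?_
    apply mul_le_mul_of_nonneg_right _ (Finset.sum_nonneg fun i _ => by positivity)
    apply mul_le_mul_of_nonneg_left _ hd0.le
    apply hCM.2.2.1 _ _ (le_min zero_le_one (by positivity)) _ ha11
    apply min_le_min le_rfl
    exact div_le_div_of_nonneg_right (by linarith) (by positivity)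
  have hc1 := hCM.2.2.2 a1 ha10 ha11
  have hLe := hQF d A (d * c a1) hA (mul_nonneg hd0.le (by linarith)) hgl
  have hcut := hCUT d A l' f' (√(d * c a1)) q hA hE hl'pos.le hq0 (by nlinarith) hN hLe
  have hsq1 : 0 ≤ 1 - 2 * √q := by
    have h1 : √q ≤ de / 8 := by
      rw [Real.sqrt_le_left (by positivity)]
      calc q ≤ de ^ 2 / 64 := hqle
        _ = (de / 8) ^ 2 := by ring
    linarith
  have hfin : t * (1 - 10 * kap) * (1 - 2 * √q) ≤ √(d * c a1) :=
    le_trans (mul_le_mul_of_nonneg_right hlt' hsq1) hcut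
  have h1 := UB_fin t d (c a1) de kap q eps hd0 hde0 hde1 hde2 hkap hq0 hqle (by linarith) hc1.2 ht0 hfin
  -- comparison of the arguments
  have hale : al ≤ a1 := min_le_min le_rfl (div_le_div_of_nonneg_right (by linarith) (by positivity))
  have hdiff : a1 - al ≤ 1 / d := by
    have h2 : (2 * (m : ℝ) + d) / d ^ 2 = 2 * m / d ^ 2 + 1 / d := by
      field_simp
    rcases le_total 1 (2 * (m : ℝ) / d ^ 2) with h3 | h3
    · rw [hal, min_eq_left h3]
      have h4 : 0 < 1 / (d : ℝ) := by positivity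
      linarith
    · rw [hal, min_eq_right h3]
      have h4 : a1 ≤ (2 * (m : ℝ) + d) / d ^ 2 := min_le_right _ _
      linarith
  have hdd' : 1 / (d : ℝ) < dd := by
    rw [div_lt_iff₀ hd0]
    have h2 : 1 / dd < d := by linarith
    rw [div_lt_iff₀ hdd] at h2
    linarith
  have h2 := (hcc a1 al ha10 ha11 hal0 hal1 (by
    rw [abs_of_nonneg (by linarith)]
    linarith)).1
  have h3 := (abs_lt.1 h2).2
  linarith

end

end Pool.Agent.helper9.HQ
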